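import Pool.Agent.helper58.FI4.SpecC

set_option autoImplicit false

namespace Pool.Agent.FI4C

open Pool.Agent.helper58.DC Pool.Agent.DI Pool.Agent.GR Pool.Agent.OB Pool.Agent.DR Pool.Agent.FI Pool.Agent.FI3 Pool.Agent.FI4

theorem CEX_mem {G : Type} [Group G] {y v : G} : v ∈ Cz (⊤ : Subgroup G) y ↔ y * v = v * y := by
  unfold Cz
  rw [top_inf_eq, Subgroup.mem_centralizer_iff]
  constructor
  · intro h
    exact h y rfl
  · intro h q hq
    rw [Set.mem_singleton_iff] at hq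
    rw [hq]
    exact h

theorem CEX_pow {G : Type} [Group G] [Finite G] (y : G) {m : ℕ} (hm : m.Coprime (Nat.card G)) :
    Cz (⊤ : Subgroup G) (y ^ m) = Cz (⊤ : Subgroup G) y := by
  ext v
  rw [CEX_mem, CEX_mem]
  constructor
  · intro h
    have hc : (orderOf y).Coprime m := (hm.symm).coprime_dvd_left (orderOf_dvd_natCard y)
    obtain ⟨k, hk⟩ : ∃ k : ℕ, (y ^ m) ^ k = y := by
      obtain ⟨k, hk⟩ := exists_pow_eq_self_of_coprime (n := m) (x := y) hc.symm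
      exact ⟨k, hk⟩
    have h1 : Commute (y ^ m) v := h
    have h2 := h1.pow_left k
    rw [hk] at h2
    exact h2
  · intro h
    exact (Commute.pow_left (show Commute y v from h) m).eq

theorem CEX_inv {G : Type} [Group G] (y : G) : Cz (⊤ : Subgroup G) y⁻¹ = Cz (⊤ : Subgroup G) y := by
  ext v
  rw [CEX_mem, CEX_mem]
  constructor
  · intro h
    have := (show Commute y⁻¹ v from h).inv_left
    rw [inv_inv] at this
    exact this
  · intro h
    exact (show Commute y v from h).inv_left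

theorem CEX_blc {G : Type} [Group G] (M : Ideal (integralClosure ℤ ℂ)) (θ : G → ℂ) {y z : G}
    (h : Cz (⊤ : Subgroup G) z = Cz (⊤ : Subgroup G) y) :
    BlC M (⊤ : Subgroup G) θ z = BlC M (⊤ : Subgroup G) θ y := by
  unfold BlC
  rw [h]

theorem CEX (hQSM : QSM_stmt) (hQEI : QEI_stmt) (hQCE : QCE_stmt) (hFBC : FBC_stmt) (hB2 : B2_stmt) : CEX_stmt := by
  classical
  intro p M hS G _ _ θ m hm y hy
  obtain ⟨K, hK⟩ : ∃ K : Subgroup G, K = Cz (⊤ : Subgroup G) y := ⟨_, rfl⟩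
  obtain ⟨T, hT⟩ : ∃ T : Set (G → ℂ), T = BlC M (⊤ : Subgroup G) θ y := ⟨_, rfl⟩
  rw [← hK, ← hT]
  obtain ⟨-, hBC1, -, -⟩ := hFBC p M hS G ⊤ θ y
  rw [← hK, ← hT] at hBC1
  have hTK : T ⊆ IrrOn K := hBC1.sub
  have hKf : (IrrOn K).Finite := (hB2 G K).1
  have hTf : T.Finite := hKf.subset hTK
  have hAf : (IrrOn (⊤ : Subgroup G)).Finite := (hB2 G ⊤).1
  have hVf : {v : G | v ∈ K ∧ PReg p v}.Finite := Set.toFinite _
  have hym : PEl p (y ^ m) := by
    obtain ⟨k, hk⟩ := hy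
    refine ⟨k, ?_⟩
    rw [← pow_mul, mul_comm, pow_mul, hk, one_pow]
  have hyi : PEl p y⁻¹ := by
    obtain ⟨k, hk⟩ := hy
    refine ⟨k, ?_⟩
    rw [inv_pow, hk, inv_one]
  have hvK : ∀ v ∈ {v : G | v ∈ K ∧ PReg p v}, y * v = v * y := by
    intro v hv
    have h1 := hv.1
    rw [hK] at h1
    exact CEX_mem.1 h1
  -- the second main theorem
  have key1 : ∀ v ∈ {v : G | v ∈ K ∧ PReg p v}, ∀ χ' ∈ IrrOn (⊤ : Subgroup G),
      ∑ η ∈ hTf.toFinset, mt K χ' η * η (y ^ m * v) = if χ' ∈ Bl M ⊤ θ then χ' (y ^ m * v) else 0 := by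
    intro v hv χ' hχ'
    have h := hQSM p M hS G ⊤ (y ^ m) (Subgroup.mem_top _) hym θ v (by
      rw [CEX_pow y hm, ← hK]
      exact hv.1) hv.2 χ' hχ'
    rw [CEX_pow y hm, CEX_blc M θ (CEX_pow y hm), ← hK, ← hT, finsum_mem_eq_finite_toFinset_sum _ hTf] at h
    exact h
  have key2 : ∀ v ∈ {v : G | v ∈ K ∧ PReg p v}, ∀ χ' ∈ IrrOn (⊤ : Subgroup G),
      ∑ η ∈ hTf.toFinset, mt K χ' η * η (y * v)⁻¹ = if χ' ∈ Bl M ⊤ θ then χ' (y * v)⁻¹ else 0 := by
    intro v hv χ' hχ'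
    have hinv : (y * v)⁻¹ = y⁻¹ * v⁻¹ := by
      rw [hvK v hv, mul_inv_rev]
    have h := hQSM p M hS G ⊤ y⁻¹ (Subgroup.mem_top _) hyi θ v⁻¹ (by
      rw [CEX_inv y, ← hK]
      exact K.inv_mem hv.1) (by
      unfold PReg
      rw [orderOf_inv]
      exact hv.2) χ' hχ'
    rw [CEX_inv y, CEX_blc M θ (CEX_inv y), ← hK, ← hT, finsum_mem_eq_finite_toFinset_sum _ hTf] at h
    rw [hinv]
    exact h
  -- one `v`
  have hBf : (Bl M (⊤ : Subgroup G) θ).Finite := hAf.subset fun ψ hψ => hψ.1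
  have hone : ∀ v ∈ {v : G | v ∈ K ∧ PReg p v}, Sf (Bl M (⊤ : Subgroup G) θ) (y ^ m * v) (y * v) =
      ∑ χ' ∈ hAf.toFinset, (∑ η ∈ hTf.toFinset, mt K χ' η * η (y ^ m * v)) *
        ∑ η' ∈ hTf.toFinset, mt K χ' η' * η' (y * v)⁻¹ := by
    intro v hv
    unfold Sf
    rw [finsum_mem_eq_finite_toFinset_sum _ hBf]
    have hsub : hBf.toFinset ⊆ hAf.toFinset := by
      intro ψ hψ
      rw [Set.Finite.mem_toFinset] at hψ ⊢
      exact hψ.1
    rw [← Finset.sum_subset hsub]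
    · refine Finset.sum_congr rfl fun ψ hψ => ?_
      rw [Set.Finite.mem_toFinset] at hψ
      rw [key1 v hv ψ hψ.1, key2 v hv ψ hψ.1, if_pos hψ, if_pos hψ]
    · intro ψ hψ hψ'
      rw [Set.Finite.mem_toFinset] at hψ hψ'
      rw [key1 v hv ψ hψ, if_neg hψ', zero_mul]
  -- the sum over `v`
  have hall : ∑ᶠ v ∈ {v : G | v ∈ K ∧ PReg p v}, Sf (Bl M (⊤ : Subgroup G) θ) (y ^ m * v) (y * v) =
      ∑ η ∈ hTf.toFinset, ∑ η' ∈ hTf.toFinset, (∑ χ' ∈ hAf.toFinset, mt K χ' η * mt K χ' η') *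
        ∑ v ∈ hVf.toFinset, η (y ^ m * v) * η' (y * v)⁻¹ := by
    rw [finsum_mem_eq_finite_toFinset_sum _ hVf]
    rw [Finset.sum_congr rfl fun v hv => hone v ((Set.Finite.mem_toFinset hVf).1 hv)]
    have h1 : ∀ v : G, ∑ χ' ∈ hAf.toFinset, (∑ η ∈ hTf.toFinset, mt K χ' η * η (y ^ m * v)) *
        ∑ η' ∈ hTf.toFinset, mt K χ' η' * η' (y * v)⁻¹ =
        ∑ η ∈ hTf.toFinset, ∑ η' ∈ hTf.toFinset, (∑ χ' ∈ hAf.toFinset, mt K χ' η * mt K χ' η') *
          (η (y ^ m * v) * η' (y * v)⁻¹) := by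
      intro v
      simp only [Finset.sum_mul_sum]
      rw [Finset.sum_comm]
      refine Finset.sum_congr rfl fun η _ => ?_
      rw [Finset.sum_comm]
      refine Finset.sum_congr rfl fun η' _ => ?_
      rw [Finset.sum_mul]
      refine Finset.sum_congr rfl fun χ' _ => ?_
      ring
    rw [Finset.sum_congr rfl fun v _ => h1 v, Finset.sum_comm]
    refine Finset.sum_congr rfl fun η _ => ?_
    rw [Finset.sum_comm]
    refine Finset.sum_congr rfl fun η' _ => ?_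
    rw [Finset.mul_sum]
  rw [hall, finsum_mem_eq_finite_toFinset_sum _ hTf]
  refine Finset.sum_congr rfl fun η hη => ?_
  rw [Set.Finite.mem_toFinset] at hη
  have hηK := hTK hη
  have hsubT : Bl M K η ⊆ T := by
    intro η' hη'
    exact hBC1.closed η hη η' hη'.1 fun z h1 h2 => SB.symm hη'.2 z h1 h2
  have hBlf : (Bl M K η).Finite := hTf.subset hsubT
  rw [finsum_mem_eq_finite_toFinset_sum _ hBlf]
  have hsub2 : hBlf.toFinset ⊆ hTf.toFinset := by
    intro ψ hψ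
    rw [Set.Finite.mem_toFinset] at hψ ⊢
    exact hsubT hψ
  rw [← Finset.sum_subset hsub2]
  · refine Finset.sum_congr rfl fun η' _ => ?_
    rw [finsum_mem_eq_finite_toFinset_sum _ hAf, finsum_mem_eq_finite_toFinset_sum _ hVf]
  · intro η' hη' hnot
    rw [Set.Finite.mem_toFinset] at hη' hnot
    have hη'K := hTK hη'
    have hyK : y ∈ K := by
      rw [hK, CEX_mem]
    have hcen : ∀ u : G, u ∈ Subgroup.zpowers y → u ∈ K ∧ Cen K u := by
      intro u hu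
      refine ⟨(Subgroup.zpowers_le.2 hyK) hu, ?_⟩
      intro l hl
      rw [hK, CEX_mem] at hl
      obtain ⟨k, rfl⟩ := hu
      exact ((show Commute y l from hl).zpow_left k).symm.eq
    have hcm := hcen (y ^ m) (Subgroup.npow_mem_zpowers y m)
    have hci := hcen y⁻¹ ((Subgroup.zpowers y).inv_mem (Subgroup.mem_zpowers y))
    obtain ⟨n, hn, hη1, -⟩ := ((hB2 G K).2 η hηK).1
    obtain ⟨n', hn', hη'1, -⟩ := ((hB2 G K).2 η' hη'K).1
    have e1 : η 1 ≠ 0 := by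
      rw [hη1]
      exact_mod_cast hn.ne'
    have e2 : η' 1 ≠ 0 := by
      rw [hη'1]
      exact_mod_cast hn'.ne'
    have hEE : EE p K η η' = 0 := by
      obtain ⟨-, -, hBC3, -⟩ := hFBC p M hS G ⊤ η y
      rw [← hK] at hBC3
      exact ((hQEI p M hS G K (Bl M K η) hBC3).2.1 η ⟨hηK, SB.refl K η⟩ η' hη'K hnot).1
    have hsum : ∑ v ∈ hVf.toFinset, η v * η' v⁻¹ = 0 := by
      unfold EE at hEE
      rw [finsum_mem_eq_finite_toFinset_sum _ hVf, div_eq_zero_iff] at hEE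
      rcases hEE with h | h
      · exact h
      · exfalso
        have : Nat.card K ≠ 0 := Nat.card_pos.ne'
        exact this (by exact_mod_cast h)
    have hz : ∑ v ∈ hVf.toFinset, η (y ^ m * v) * η' (y * v)⁻¹ = 0 := by
      have h1 : ∀ v ∈ hVf.toFinset, η (y ^ m * v) * η' (y * v)⁻¹ =
          (η (y ^ m) / η 1) * (η' y⁻¹ / η' 1) * (η v * η' v⁻¹) := by
        intro v hv
        rw [Set.Finite.mem_toFinset] at hv
        have hinv : (y * v)⁻¹ = y⁻¹ * v⁻¹ := by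
          rw [hvK v hv, mul_inv_rev]
        have a1 := (hQCE G K (y ^ m) hcm.1 hcm.2 η hηK).1 v
        have a2 := (hQCE G K y⁻¹ hci.1 hci.2 η' hη'K).1 v⁻¹
        have b1 : η (y ^ m * v) = η (y ^ m) / η 1 * η v := by
          field_simp
          exact a1
        have b2 : η' (y⁻¹ * v⁻¹) = η' y⁻¹ / η' 1 * η' v⁻¹ := by
          field_simp
          exact a2
        rw [hinv, b1, b2]
        ring
      rw [Finset.sum_congr rfl h1, ← Finset.mul_sum, hsum, mul_zero]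
    rw [hz, mul_zero]

end Pool.Agent.FI4C
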