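import Pool.Agent.helper59.FI4.SpecI

set_option autoImplicit false

namespace Pool.Agent.FI4I

open Pool.Agent.helper58.DC Pool.Agent.DI Pool.Agent.GR Pool.Agent.OB Pool.Agent.DR Pool.Agent.FI Pool.Agent.FI3 Pool.Agent.FI4

theorem TR2_cc {G : Type} [Group G] (N : Subgroup G) (ψ z : G → ℂ) (hψ : ∀ x, x ∉ N → ψ x = 0) :
    cc (rN N ψ) (rN N z) = cc ψ z := by
  unfold cc
  have h1 : rN N ψ 1 = ψ 1 := by
    unfold rN
    rw [OneMemClass.coe_one]
  rw [h1]
  congr 1
  have h2 : ∑ᶠ x : N, rN N z x * rN N ψ x = ∑ᶠ (x : G), ∑ᶠ (_ : x ∈ N), z x * ψ x :=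
    finsum_subtype_eq_finsum_cond (f := fun x : G => z x * ψ x) (fun x => x ∈ N)
  rw [h2]
  refine finsum_congr fun x => ?_
  by_cases hx : x ∈ N
  · simp [hx]
  · simp [hx, hψ x hx]

theorem TR2 : TR2_stmt := by
  classical
  intro G _ _ M N
  refine ⟨fun ψ z hψ => TR2_cc N ψ z hψ, ?_, ?_, ?_⟩
  · intro H hHN η ψ hη hψ
    constructor
    · intro h z' hz' hi'
      obtain ⟨z, hzd⟩ : ∃ z : G → ℂ, z = fun x => if hx : x ∈ N then z' ⟨x, hx⟩ else 0 := ⟨_, rfl⟩
      have hz1 : ∀ (x : G) (hx : x ∈ N), z x = z' ⟨x, hx⟩ := by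
        intro x hx
        rw [hzd]
        exact dif_pos hx
      have hz0 : ∀ x : G, x ∉ N → z x = 0 := by
        intro x hx
        rw [hzd]
        exact dif_neg hx
      have hr : rN N z = z' := by
        funext x
        exact hz1 x x.2
      have hCF : CF H z := by
        refine ⟨fun k hk x => ?_, fun x hx => ?_⟩
        · by_cases hx : x ∈ N
          · have hk' := hHN hk
            have hx' : k * x * k⁻¹ ∈ N := N.mul_mem (N.mul_mem hk' hx) (N.inv_mem hk')
            rw [hz1 _ hx', hz1 _ hx]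
            exact hz'.1 ⟨k, hk'⟩ (Subgroup.mem_subgroupOf.2 hk) ⟨x, hx⟩
          · have hx' : k * x * k⁻¹ ∉ N := by
              intro h3
              have hk' := hHN hk
              have h4 := N.mul_mem (N.mul_mem (N.inv_mem hk') h3) hk'
              have h5 : k⁻¹ * (k * x * k⁻¹) * k = x := by group
              rw [h5] at h4
              exact hx h4
            rw [hz0 _ hx', hz0 _ hx]
        · by_cases hxN : x ∈ N
          · rw [hz1 x hxN]
            exact hz'.2 ⟨x, hxN⟩ (fun h3 => hx (Subgroup.mem_subgroupOf.1 h3))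
          · exact hz0 x hxN
      have hi : ∀ x, IsIntegral ℤ (z x) := by
        intro x
        by_cases hx : x ∈ N
        · rw [hz1 x hx]
          exact hi' _
        · rw [hz0 x hx]
          exact isIntegral_zero
      have h3 := h z hCF hi
      rw [← TR2_cc N η z hη, ← TR2_cc N ψ z hψ, hr] at h3
      exact h3
    · intro h z hz hi
      rw [← TR2_cc N η z hη, ← TR2_cc N ψ z hψ]
      refine h (rN N z) ⟨fun k hk x => ?_, fun x hx => ?_⟩ fun x => hi _
      · exact hz.1 k (Subgroup.mem_subgroupOf.1 hk) x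
      · exact hz.2 x fun h3 => hx (Subgroup.mem_subgroupOf.2 h3)
  · intro H hHN y
    funext x
    unfold rN cls
    have hiff : (∃ l ∈ H, l * (y : G) * l⁻¹ = (x : G)) ↔ ∃ l ∈ H.subgroupOf N, l * y * l⁻¹ = x := by
      constructor
      · rintro ⟨l, hl, h⟩
        exact ⟨⟨l, hHN hl⟩, Subgroup.mem_subgroupOf.2 hl, Subtype.ext h⟩
      · rintro ⟨l, hl, h⟩
        exact ⟨l, Subgroup.mem_subgroupOf.1 hl, congrArg Subtype.val h⟩
    by_cases hc : ∃ l ∈ H, l * (y : G) * l⁻¹ = (x : G)
    · rw [if_pos hc, if_pos (hiff.1 hc)]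
    · rw [if_neg hc, if_neg fun h => hc (hiff.2 h)]
  · intro n ψ
    funext x
    unfold funMap rN
    rw [MulAut.conj_inv_apply]
    have h := MulAut.conj_inv_apply (n : G) (x : G)
    change ψ _ = ψ ((MulAut.conj (n : G))⁻¹ (x : G))
    rw [h]
    rfl

end Pool.Agent.FI4I
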